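import Pool.Agent.Q289.BG.Stm
import Pool.Agent.Q25.OP.Sym

/-!
# Project BG (helper289), job SIX: symmetric functions do not see the order

The mean of `∑ x_i (1 - x_i)` over the order polytope is `n / 6`.
-/

set_option autoImplicit false

namespace Q208.BG

open MeasureTheory Set
open scoped ENNReal

variable {ι : Type} [Fintype ι]

/-- the unit cube -/
def cube (ι : Type) : Set (ι → ℝ) := Set.pi univ fun _ => Icc (0 : ℝ) 1

lemma cube_meas : MeasurableSet (cube ι) := MeasurableSet.univ_pi fun _ => measurableSet_Icc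

omit [Fintype ι] in
lemma cube_comp : IsCompact (cube ι) := isCompact_univ_pi fun _ => isCompact_Icc

lemma vol_cube : volume (cube ι) = 1 := by
  unfold cube
  rw [volume_pi_pi]
  simp

lemma one_dim : ∫ y in Icc (0 : ℝ) 1, y * (1 - y) = 1 / 6 := by
  rw [integral_Icc_eq_integral_Ioc, ← intervalIntegral.integral_of_le zero_le_one]
  have e : (fun y : ℝ => y * (1 - y)) = fun y => y - y ^ 2 := by
    funext y; ring
  rw [e, intervalIntegral.integral_sub (Continuous.intervalIntegrable (by fun_prop) _ _)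
    ((continuous_pow 2).intervalIntegrable _ _), integral_id, integral_pow]
  norm_num

lemma six_one (i : ι) : ∫ x in cube ι, x i * (1 - x i) = 1 / 6 := by
  have e : (volume : Measure (ι → ℝ)).restrict (cube ι) =
      Measure.pi (fun _ => volume.restrict (Icc (0 : ℝ) 1)) := by
    exact Measure.restrict_pi_pi _ _
  have : IsProbabilityMeasure (volume.restrict (Icc (0 : ℝ) 1)) := ⟨by simp⟩
  rw [e]
  have mp := measurePreserving_eval (fun _ : ι => volume.restrict (Icc (0 : ℝ) 1)) i
  have h := integral_map (μ := Measure.pi (fun _ : ι => volume.restrict (Icc (0 : ℝ) 1)))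
    (φ := Function.eval i) mp.measurable.aemeasurable (f := fun y : ℝ => y * (1 - y))
    (by fun_prop)
  rw [mp.map_eq, one_dim] at h
  exact h.symm

lemma six_cube : ∫ x in cube ι, ∑ i, x i * (1 - x i) = Fintype.card ι / 6 := by
  rw [integral_finsetSum]
  · simp only [six_one]
    rw [Finset.sum_const, Finset.card_univ, nsmul_eq_mul]
    ring
  · intro i _
    refine ContinuousOn.integrableOn_compact cube_comp ?_
    fun_prop

lemma nonneg_cube (x : ι → ℝ) (hx : x ∈ cube ι) : 0 ≤ ∑ i, x i * (1 - x i) := by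
  apply Finset.sum_nonneg
  intro i _
  have := hx i (mem_univ i)
  exact mul_nonneg this.1 (by linarith [this.2])

/-- everything from the symmetry property -/
lemma six_core [PartialOrder ι] (κ : ℝ≥0∞) (h0 : κ ≠ 0) (ht : κ ≠ ⊤)
    (hs : ∀ G : (ι → ℝ) → ℝ≥0∞, Measurable G → (∀ (σ : Equiv.Perm ι) (x : ι → ℝ), G (x ∘ σ) = G x) →
      ∫⁻ x in {x : ι → ℝ | Monotone x}, G x = κ * ∫⁻ x, G x) :
    (∫ x in cube ι ∩ {x : ι → ℝ | Monotone x}, ∑ i, x i * (1 - x i)) /
      (volume (cube ι ∩ {x : ι → ℝ | Monotone x})).toReal = Fintype.card ι / 6 := by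
  have hsym : ∀ (σ : Equiv.Perm ι) (x : ι → ℝ), x ∘ σ ∈ cube ι ↔ x ∈ cube ι := by
    intro σ x
    constructor
    · intro h i _
      have := h (σ.symm i) (mem_univ _)
      simpa using this
    · intro h i _
      exact h (σ i) (mem_univ _)
  have hm : Measurable fun x : ι → ℝ => ENNReal.ofReal (∑ i, x i * (1 - x i)) := by fun_prop
  have hv := hs ((cube ι).indicator fun _ => 1) (measurable_const.indicator cube_meas) (by
    intro σ x
    by_cases h : x ∈ cube ι
    · rw [indicator_of_mem h, indicator_of_mem ((hsym σ x).2 h)]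
    · rw [indicator_of_notMem h, indicator_of_notMem (fun h' => h ((hsym σ x).1 h'))])
  have hi := hs ((cube ι).indicator fun x => ENNReal.ofReal (∑ i, x i * (1 - x i)))
    (hm.indicator cube_meas) (by
    intro σ x
    by_cases h : x ∈ cube ι
    · rw [indicator_of_mem h, indicator_of_mem ((hsym σ x).2 h)]
      congr 1
      exact Equiv.sum_comp σ fun i => x i * (1 - x i)
    · rw [indicator_of_notMem h, indicator_of_notMem (fun h' => h ((hsym σ x).1 h'))])
  rw [lintegral_indicator cube_meas, lintegral_indicator cube_meas,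
    Measure.restrict_restrict cube_meas] at hv hi
  rw [lintegral_one, lintegral_one, Measure.restrict_apply_univ, Measure.restrict_apply_univ,
    vol_cube, mul_one] at hv
  have hc : ∫⁻ x in cube ι, ENNReal.ofReal (∑ i, x i * (1 - x i)) =
      ENNReal.ofReal (Fintype.card ι / 6) := by
    rw [← six_cube, ofReal_integral_eq_lintegral_ofReal]
    · refine ContinuousOn.integrableOn_compact cube_comp ?_
      fun_prop
    · filter_upwards [ae_restrict_mem cube_meas] with x hx
      exact nonneg_cube x hx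
  rw [hc] at hi
  have hI : ∫ x in cube ι ∩ {x : ι → ℝ | Monotone x}, ∑ i, x i * (1 - x i) =
      (κ * ENNReal.ofReal (Fintype.card ι / 6)).toReal := by
    rw [← hi, integral_eq_lintegral_of_nonneg_ae]
    · refine ae_restrict_of_ae_restrict_of_subset inter_subset_left ?_
      filter_upwards [ae_restrict_mem cube_meas] with x hx
      exact nonneg_cube x hx
    · fun_prop
  rw [hI, hv, ENNReal.toReal_mul, ENNReal.toReal_ofReal (by positivity)]
  have hk : κ.toReal ≠ 0 := by
    rw [ENNReal.toReal_ne_zero]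
    exact ⟨h0, ht⟩
  field_simp


open Q289.OP in
theorem six_aux [PartialOrder ι] (κ : ℝ≥0∞) (h0 : κ ≠ 0) (ht : κ ≠ ⊤)
    (hs : ∀ G : (ι → ℝ) → ℝ≥0∞, Measurable G → (∀ (σ : Equiv.Perm ι) (x : ι → ℝ), G (x ∘ σ) = G x) →
      ∫⁻ x in {x : ι → ℝ | Monotone x}, G x = κ * ∫⁻ x, G x) :
    (∫ x in OPo ι 0 1, ∑ i, x i * (1 - x i)) / (volume (OPo ι 0 1)).toReal =
      Fintype.card ι / 6 := by
  have mp := EuclideanSpace.volume_preserving_symm_measurableEquiv_toLp ι
  have hD : OPo ι 0 1 = (MeasurableEquiv.toLp 2 (ι → ℝ)).symm ⁻¹'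
      (cube ι ∩ {x : ι → ℝ | Monotone x}) := by
    ext x
    simp only [OPo, cube, mem_ofPred_eq, mem_preimage, mem_inter_iff, mem_pi, mem_univ,
      true_implies]
    rfl
  rw [hD, mp.measure_preimage_equiv]
  have h2 := mp.setIntegral_preimage_emb (MeasurableEquiv.toLp 2 (ι → ℝ)).symm.measurableEmbedding
    (fun x : ι → ℝ => ∑ i, x i * (1 - x i)) (cube ι ∩ {x : ι → ℝ | Monotone x})
  rw [← six_core κ h0 ht hs, ← h2]
  rfl

open Pool.Agent.W695.KH (EV) in
theorem six : Q289.BG.S_SIX := by
  intro ι _ _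
  classical
  obtain ⟨κ, h0, ht, hs⟩ := Pool.Agent.Q25.OP.sym ι
  show (∫ x in Q289.OP.OPo ι 0 1, ∑ i, x i * (1 - x i)) /
    (volume (Q289.OP.OPo ι 0 1)).toReal = Fintype.card ι / 6
  exact six_aux κ h0 ht hs

end Q208.BG
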